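import Pool.Agent.Lib.MP_e84969_co.Almost
import Pool.Agent.Lib.MP_e84969_co.Upper

/-!
# The asymptotic number of representable matroids over a finite field

For every prime power `q = p ^ k` the number `a_q(n)` of isomorphism classes of
`GF(q)`-representable matroids on `n` elements satisfies `a_q(n) / F_q(n) → 1`, where
`F_q(n) = (∑_{j ≤ n} [n, j]_q) / (n! k (q - 1)^(n - 1))`.
-/

set_option linter.unusedSectionVars false

namespace Pool.Agent.Results.MP_e84969_co.RepresentableCount

open Filter Topology Module
open Pool.Agent.Lib.MP_e84969_co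

/-! ### Definitions used in the statement -/

/-- A matroid with ground set all of `Fin n` is `K`-representable if there is a matrix `A` over
`K` with columns indexed by `Fin n` such that a set of elements is independent exactly when the
corresponding columns are linearly independent. -/
def IsRepresentable (K : Type*) [Field K] {n : ℕ} (M : Matroid (Fin n)) : Prop :=
  M.E = Set.univ ∧ ∃ (m : ℕ) (A : Matrix (Fin m) (Fin n) K),
    ∀ I : Set (Fin n), M.Indep I ↔ LinearIndepOn K (fun (j : Fin n) (i : Fin m) => A i j) I

/-- Isomorphism of matroids with ground set `Fin n`: some bijection of the ground sets maps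
independent sets onto independent sets. -/
def Iso {n : ℕ} (M N : Matroid (Fin n)) : Prop :=
  ∃ σ : Equiv.Perm (Fin n), ∀ I : Set (Fin n), M.Indep I ↔ N.Indep (σ '' I)

/-- Isomorphism is an equivalence relation on the representable matroids on `Fin n`. -/
def isoSetoid (K : Type*) [Field K] (n : ℕ) : Setoid {M : Matroid (Fin n) // IsRepresentable K M} where
  r M N := Iso M.1 N.1
  iseqv := by
    constructor
    · intro M
      exact ⟨1, fun I => by simp⟩
    · rintro M N ⟨σ, h⟩
      refine ⟨σ.symm, fun I => ?_⟩
      rw [h, ← Set.image_comp]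
      simp
    · rintro M N P ⟨σ, h⟩ ⟨τ, h'⟩
      refine ⟨σ.trans τ, fun I => ?_⟩
      rw [h, h', ← Set.image_comp]
      rfl

/-- The number `a_K(n)` of isomorphism classes of `K`-representable matroids with exactly `n`
elements. -/
noncomputable def numMatroids (K : Type*) [Field K] (n : ℕ) : ℕ :=
  Nat.card (Quotient (isoSetoid K n))

/-- The Gaussian binomial coefficient: the number of `j`-dimensional subspaces of `K ^ n`. -/
noncomputable def gaussBinom (K : Type*) [Field K] (n j : ℕ) : ℕ :=
  Nat.card {U : Submodule K (Fin n → K) // finrank K U = j}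

/-- The function `F_q(n) = (1 / (n! k (q - 1)^(n - 1))) ∑_{j = 0}^n [n, j]_q`, where `q` is the
number of elements of `K`. -/
noncomputable def F (K : Type*) [Field K] (k n : ℕ) : ℝ :=
  1 / ((n.factorial : ℝ) * k * ((Nat.card K : ℝ) - 1) ^ (n - 1)) *
    ∑ j ∈ Finset.range (n + 1), (gaussBinom K n j : ℝ)

/-! ### Matroids of subspaces -/

variable {K : Type*} [Field K] {n : ℕ}

lemma linearIndepOn_iff_fun {m : ℕ} (A : Matrix (Fin m) (Fin n) K) (I : Set (Fin n)) :
    LinearIndepOn K (fun (j : Fin n) (i : Fin m) => A i j) I ↔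
      ∀ a : Fin n → K, (∀ j ∉ I, a j = 0) → (∀ i, ∑ j, a j * A i j = 0) → a = 0 := by
  rw [linearIndepOn_iff]
  constructor
  · intro h a hs ha
    let l : Fin n →₀ K := Finsupp.equivFunOnFinite.symm a
    have hl : ∀ j, l j = a j := fun j => rfl
    have h1 := h l (by
      rw [Finsupp.mem_supported']
      intro j hj
      exact hs j hj) (by
      rw [Finsupp.linearCombination_apply, Finsupp.sum_fintype _ _ (by simp)]
      funext i
      rw [Finset.sum_apply]
      simpa [hl] using ha i)
    funext j
    have := DFunLike.congr_fun h1 j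
    exact this
  · intro h l hl h0
    have h1 := h (fun j => l j) (by
      intro j hj
      exact (Finsupp.mem_supported' _ _).1 hl j hj) (by
      intro i
      rw [Finsupp.linearCombination_apply, Finsupp.sum_fintype _ _ (by simp)] at h0
      have := congrFun h0 i
      rw [Finset.sum_apply] at this
      simpa using this)
    ext j
    exact congrFun h1 j

/-- Independence of columns is independence with respect to the row space. -/
lemma indep_iff_rowspace {m : ℕ} (A : Matrix (Fin m) (Fin n) K) (I : Set (Fin n)) :
    LinearIndepOn K (fun (j : Fin n) (i : Fin m) => A i j) I ↔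
      Ind (Submodule.span K (Set.range fun i => A i)) I := by
  rw [linearIndepOn_iff_fun]
  constructor
  · intro h a hs ha
    exact h a hs fun i => ha _ (Submodule.subset_span ⟨i, rfl⟩)
  · intro h a hs ha
    refine h a hs fun u hu => ?_
    induction hu using Submodule.span_induction with
    | mem u hu =>
      obtain ⟨i, rfl⟩ := hu
      exact ha i
    | zero => simp
    | add u v _ _ h1 h2 =>
      simp only [Pi.add_apply, mul_add, Finset.sum_add_distrib, h1, h2, add_zero]
    | smul c u _ h1 =>
      have : ∀ i, a i * (c • u) i = c * (a i * u i) := by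
        intro i
        rw [Pi.smul_apply, smul_eq_mul]
        ring
      rw [Finset.sum_congr rfl fun i _ => this i, ← Finset.mul_sum, h1, mul_zero]

/-- The matroid of the columns of a matrix. -/
lemma exists_matroid {m : ℕ} (v : Fin n → Fin m → K) :
    ∃ M : Matroid (Fin n), M.E = Set.univ ∧ ∀ I, M.Indep I ↔ LinearIndepOn K v I := by
  have hrank : ∀ I : Set (Fin n), LinearIndepOn K v I →
      finrank K (Submodule.span K (v '' I)) = I.ncard := by
    intro I hI
    classical
    have hft := Fintype.ofFinite I
    have h1 := finrank_span_eq_card (R := K) (b := fun x : I => v x) hI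
    rw [Set.image_eq_range, h1, ← Nat.card_eq_fintype_card]
    rfl
  refine ⟨(IndepMatroid.ofFinite (E := Set.univ) Set.finite_univ (fun I => LinearIndepOn K v I)
    (linearIndepOn_empty K v) (fun I J hJ hIJ => hJ.mono hIJ) ?_
    (fun I _ => Set.subset_univ I)).matroid, rfl, fun I => Iff.rfl⟩
  intro I J hI hJ hlt
  by_contra hcon
  push Not at hcon
  have h1 : v '' J ⊆ Submodule.span K (v '' I) := by
    rintro _ ⟨e, he, rfl⟩
    by_cases heI : e ∈ I
    · exact Submodule.subset_span ⟨e, heI, rfl⟩
    · by_contra hns
      exact hcon e he heI (hI.insert hns)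
  have h2 : Submodule.span K (v '' J) ≤ Submodule.span K (v '' I) := Submodule.span_le.2 h1
  have h3 := Submodule.finrank_mono h2
  rw [hrank I hI, hrank J hJ] at h3
  omega

lemma exists_matOf (U : Submodule K (Fin n → K)) :
    ∃ M : {M : Matroid (Fin n) // IsRepresentable K M}, ∀ I, M.1.Indep I ↔ Ind U I := by
  let b := finBasis K U
  let A : Matrix (Fin (finrank K U)) (Fin n) K := fun i j => (b i : Fin n → K) j
  have hspan : Submodule.span K (Set.range fun i => A i) = U := by
    have h1 : (Set.range fun i => A i) = U.subtype '' Set.range b := by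
      rw [← Set.range_comp]
      rfl
    rw [h1, ← Submodule.map_span, b.span_eq, Submodule.map_top, Submodule.range_subtype]
  obtain ⟨M, hE, hM⟩ := exists_matroid (K := K) fun (j : Fin n) (i : Fin (finrank K U)) => A i j
  refine ⟨⟨M, hE, _, A, hM⟩, fun I => ?_⟩
  rw [hM, indep_iff_rowspace, hspan]

/-- The matroid of a subspace. -/
noncomputable def matOf (U : Submodule K (Fin n → K)) :
    {M : Matroid (Fin n) // IsRepresentable K M} := (exists_matOf U).choose

lemma matOf_indep (U : Submodule K (Fin n → K)) (I : Set (Fin n)) :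
    (matOf U).1.Indep I ↔ Ind U I := (exists_matOf U).choose_spec I

/-- Every representable matroid is the matroid of a subspace. -/
lemma exists_sub (M : {M : Matroid (Fin n) // IsRepresentable K M}) :
    ∃ U : Submodule K (Fin n → K), ∀ I, M.1.Indep I ↔ Ind U I := by
  obtain ⟨M, hE, m, A, hA⟩ := M
  exact ⟨_, fun I => by rw [hA, indep_iff_rowspace]⟩

lemma ind_act_aux (g : SM K (Fin n)) (U : Submodule K (Fin n → K)) (I : Set (Fin n))
    (h : Ind (g • U) (g.perm '' I)) : Ind U I := by
  intro a hs ha
  have h1 := h (fun y => ((g.diag y)⁻¹ : Kˣ) * g.aut (a (g.perm.symm y))) (by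
    intro y hy
    rw [hs (g.perm.symm y), map_zero, mul_zero]
    intro h'
    exact hy ⟨_, h', by simp⟩) (by
    rintro _ ⟨u, hu, rfl⟩
    have h2 : ∀ y, (((g.diag y)⁻¹ : Kˣ) : K) * g.aut (a (g.perm.symm y)) * SM.act g u y =
        g.aut (a (g.perm.symm y) * u (g.perm.symm y)) := by
      intro y
      rw [SM.act_apply, map_mul]
      calc (((g.diag y)⁻¹ : Kˣ) : K) * g.aut (a (g.perm.symm y)) *
            (g.diag y * g.aut (u (g.perm.symm y)))
          = ((((g.diag y)⁻¹ : Kˣ) : K) * g.diag y) *
            (g.aut (a (g.perm.symm y)) * g.aut (u (g.perm.symm y))) := by ring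
        _ = _ := by rw [Units.inv_mul, one_mul]
    rw [Finset.sum_congr rfl fun y _ => h2 y, ← map_sum,
      Equiv.sum_comp g.perm.symm (fun x => a x * u x), ha u hu, map_zero])
  funext x
  have h3 := congrFun h1 (g.perm x)
  simp only [Equiv.symm_apply_apply, Pi.zero_apply, mul_eq_zero] at h3
  rcases h3 with h3 | h3
  · exact absurd h3 (Units.ne_zero _)
  · exact (map_eq_zero_iff g.aut g.aut.injective).1 h3

lemma ind_act (g : SM K (Fin n)) (U : Submodule K (Fin n → K)) (I : Set (Fin n)) :
    Ind (g • U) (g.perm '' I) ↔ Ind U I := by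
  refine ⟨ind_act_aux g U I, fun h => ind_act_aux g⁻¹ (g • U) (g.perm '' I) ?_⟩
  rw [inv_smul_smul, SM.inv_perm, ← Set.image_comp]
  have : (⇑(g.perm)⁻¹ ∘ ⇑g.perm) = id := by
    funext x
    simp
  rw [this, Set.image_id]
  exact h

/-! ### Upper bound -/

instance finite_rep [Finite K] : Finite {M : Matroid (Fin n) // IsRepresentable K M} := by
  have hfin := finite_submodule (K := K) (V := Fin n → K)
  refine Finite.of_injective (fun M => (exists_sub M).choose) ?_
  intro M N h
  have h1 := (exists_sub M).choose_spec
  have h2 := (exists_sub N).choose_spec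
  simp only at h
  apply Subtype.ext
  apply Matroid.ext_indep
  · rw [M.2.1, N.2.1]
  · intro I _
    rw [h1, h2, h]

/-- There are at most as many isomorphism classes as orbits. -/
lemma numMatroids_le [Finite K] : numMatroids K n ≤ numOrb K n := by
  have hfin := finite_submodule (K := K) (V := Fin n → K)
  apply Nat.card_le_card_of_injective
    (fun c : Quotient (isoSetoid K n) => (Quotient.mk _ (exists_sub c.out).choose :
      Quotient (MulAction.orbitRel (SM K (Fin n)) (Submodule K (Fin n → K)))))
  intro c d h
  have h1 := (exists_sub c.out).choose_spec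
  have h2 := (exists_sub d.out).choose_spec
  simp only at h
  have h3 := Quotient.exact h
  obtain ⟨g, hg⟩ := h3
  simp only at hg
  rw [← c.out_eq, ← d.out_eq]
  apply Quotient.sound
  refine (isoSetoid K n).iseqv.symm ⟨g.perm, fun I => ?_⟩
  rw [h2, h1, ← hg, ind_act]

/-! ### Lower bound -/

lemma lower_count [Finite K] (hn : 0 < n) :
    (Nat.card K - 1) * Nat.card {U : Submodule K (Fin n → K) // Good2 U} ≤
      numMatroids K n * Nat.card (SM K (Fin n)) := by
  classical
  have hne : Nonempty (Fin n) := ⟨⟨0, hn⟩⟩
  have hfin := finite_submodule (K := K) (V := Fin n → K)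
  have hfin2 : Finite (Quotient (isoSetoid K n)) := inferInstance
  rw [← Nat.card_units, numMatroids, ← Nat.card_prod, ← Nat.card_prod]
  let cls : Submodule K (Fin n → K) → Quotient (isoSetoid K n) := fun U => Quotient.mk _ (matOf U)
  -- a chosen good subspace in each class
  have hex : ∀ c : Quotient (isoSetoid K n), ∃ W : Submodule K (Fin n → K),
      ∀ U, Good2 U → cls U = c → ∃ g : SM K (Fin n), g • W = U := by
    intro c
    by_cases h : ∃ W, Good2 W ∧ cls W = c
    · obtain ⟨W, hW, hWc⟩ := h
      refine ⟨W, fun U _ hUc => ?_⟩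
      have h1 : cls U = cls W := hUc.trans hWc.symm
      obtain ⟨σ, hσ⟩ := Quotient.exact h1
      have h2 := orbit_of_iso (U := U) (U' := W) (good_of_good2 hW) σ (fun I => by
        have := hσ I
        rwa [matOf_indep, matOf_indep] at this)
      obtain ⟨g, hg⟩ := h2
      exact ⟨g, hg⟩
    · refine ⟨⊥, fun U hU hUc => absurd ⟨U, hU, hUc⟩ h⟩
  choose W hW using hex
  have hex2 : ∀ U : {U : Submodule K (Fin n → K) // Good2 U}, ∃ g : SM K (Fin n),
      g • W (cls U.1) = U.1 := fun U => hW _ U.1 U.2 rfl
  choose g hg using hex2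
  apply Nat.card_le_card_of_injective
    (fun x : Kˣ × {U : Submodule K (Fin n → K) // Good2 U} =>
      (cls x.2.1, g x.2 * SM.scalar K (Fin n) x.1))
  rintro ⟨c, U⟩ ⟨c', U'⟩ h
  simp only [Prod.mk.injEq] at h
  obtain ⟨h1, h2⟩ := h
  have h3 : (g U * SM.scalar K (Fin n) c) • W (cls U.1) = U.1 := by
    rw [mul_smul, SM.scalar_smul, hg]
  have h4 : (g U' * SM.scalar K (Fin n) c') • W (cls U'.1) = U'.1 := by
    rw [mul_smul, SM.scalar_smul, hg]
  have h5 : U = U' := by
    apply Subtype.ext
    rw [← h3, ← h4, h1, h2]
  subst h5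
  have h6 := mul_left_cancel h2
  rw [SM.scalar_injective h6]

/-! ### The number of field automorphisms -/

lemma card_ringAut {p k : ℕ} (hp : p.Prime) (hK : Nat.card K = p ^ k) (hk : 1 ≤ k) :
    Nat.card (RingAut K) = k := by
  have hpp : Fact p.Prime := ⟨hp⟩
  have hfin : Finite K := Nat.finite_of_card_ne_zero (by
    rw [hK]; exact pow_ne_zero _ hp.ne_zero)
  have hft := Fintype.ofFinite K
  obtain ⟨p', hp'⟩ := CharP.exists K
  have hchar : CharP K p := by
    obtain ⟨m, hp'p, hm⟩ := FiniteField.card K p'
    rw [← Nat.card_eq_fintype_card, hK] at hm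
    have : p = p' := by
      have h1 : p ∣ p' ^ (m : ℕ) := by
        rw [← hm]
        exact dvd_pow_self p (by omega)
      exact (Nat.prime_dvd_prime_iff_eq hp hp'p).1 (hp.dvd_of_dvd_pow h1)
    rw [this]
    exact hp'
  let _ := ZMod.algebra K p
  have h1 : Nat.card (K ≃ₐ[ZMod p] K) = finrank (ZMod p) K := IsGalois.card_aut_eq_finrank _ _
  have h2 : finrank (ZMod p) K = k := by
    have h3 := Module.natCard_eq_pow_finrank (K := ZMod p) (V := K)
    rw [hK, Nat.card_eq_fintype_card (α := ZMod p), ZMod.card] at h3
    exact (Nat.pow_right_injective hp.two_le h3).symm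
  rw [← h2, ← h1]
  refine Nat.card_congr ⟨fun σ => AlgEquiv.ofRingEquiv (f := σ) fun r => ?_,
    fun σ => σ.toRingEquiv, fun σ => ?_, fun σ => ?_⟩
  · exact RingHom.congr_fun (Subsingleton.elim ((σ : K →+* K).comp (algebraMap (ZMod p) K))
      (algebraMap (ZMod p) K)) r
  · ext x; rfl
  · ext x; rfl

/-! ### The sum of the Gaussian binomial coefficients -/

lemma sum_gaussBinom [Finite K] : ∑ j ∈ Finset.range (n + 1), (gaussBinom K n j : ℝ) =
    numSub K n := by
  classical
  have hfin := finite_submodule (K := K) (V := Fin n → K)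
  have hft := Fintype.ofFinite (Submodule K (Fin n → K))
  have h1 := Finset.card_eq_sum_card_fiberwise (s := (Finset.univ : Finset (Submodule K (Fin n → K))))
    (f := fun U : Submodule K (Fin n → K) => finrank K U) (t := Finset.range (n + 1)) (by
      intro (U : Submodule K (Fin n → K)) _
      have := Submodule.finrank_le U
      rw [Module.finrank_fin_fun] at this
      simp only [Finset.coe_range, Set.mem_Iio]
      omega)
  rw [numSub, Nat.card_eq_fintype_card, ← Finset.card_univ, h1]
  push_cast
  refine Finset.sum_congr rfl fun j _ => ?_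
  rw [gaussBinom, Nat.card_eq_fintype_card, Fintype.card_subtype]

/-- **The asymptotic number of representable matroids.**  Let `p` be a prime, `k ≥ 1`, and let `K`
be a field with `p ^ k` elements.  The number of isomorphism classes of `K`-representable matroids
with `n` elements is asymptotic to `F_q(n)`, `q = p ^ k`. -/
theorem result (p k : ℕ) (hp : p.Prime) (hk : 1 ≤ k) (K : Type*) [Field K]
    (hK : Nat.card K = p ^ k) :
    Tendsto (fun n : ℕ => (numMatroids K n : ℝ) / F K k n) atTop (𝓝 1) := by
  have hfin : Finite K := Nat.finite_of_card_ne_zero (by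
    rw [hK]; exact pow_ne_zero _ hp.ne_zero)
  obtain ⟨e, he, hup⟩ := upper (K := K)
  obtain ⟨e', he', hlo⟩ := almost_all_good (K := K)
  have hq1 : 1 < Nat.card K := one_lt_card
  have hq : (0 : ℝ) < (Nat.card K : ℝ) - 1 := by
    have : (1 : ℝ) < Nat.card K := by exact_mod_cast hq1
    linarith
  have hqq : ((Nat.card K - 1 : ℕ) : ℝ) = (Nat.card K : ℝ) - 1 := by
    push_cast [Nat.cast_sub hq1.le]
    ring
  have hk0 : (0 : ℝ) < k := by exact_mod_cast hk
  have hup1 : Tendsto (fun n => 1 + e n / ((Nat.card K : ℝ) - 1)) atTop (𝓝 1) := by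
    have := (he.div_const ((Nat.card K : ℝ) - 1)).const_add 1
    simpa using this
  have hlo1 : Tendsto (fun n => 1 - e' n) atTop (𝓝 1) := by
    have := he'.const_sub 1
    simpa using this
  -- the ratio
  have hratio : ∀ n : ℕ, 0 < n → (numMatroids K n : ℝ) / F K k n =
      (numMatroids K n * Nat.card (SM K (Fin n)) : ℝ) / (((Nat.card K : ℝ) - 1) * numSub K n) := by
    intro n hn
    rw [F, sum_gaussBinom, SM.card_SM, card_ringAut hp hK hk, Nat.card_units]
    push_cast
    rw [hqq]
    have hN : (0 : ℝ) < numSub K n := by exact_mod_cast numSub_pos (K := K) n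
    have hfac : (0 : ℝ) < n.factorial := by exact_mod_cast n.factorial_pos
    have hpow : ((Nat.card K : ℝ) - 1) ^ n = ((Nat.card K : ℝ) - 1) ^ (n - 1) *
        ((Nat.card K : ℝ) - 1) := by
      rw [← pow_succ, Nat.sub_add_cancel hn]
    have hpow0 : (0 : ℝ) < ((Nat.card K : ℝ) - 1) ^ (n - 1) := by positivity
    rw [hpow]
    field_simp
  refine tendsto_of_tendsto_of_tendsto_of_le_of_le' hlo1 hup1 ?_ ?_
  · filter_upwards [hlo, eventually_gt_atTop 0] with n h1 hn
    rw [hratio n hn]
    have hN : (0 : ℝ) < numSub K n := by exact_mod_cast numSub_pos (K := K) n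
    rw [le_div_iff₀ (by positivity)]
    have h2 := lower_count (K := K) hn
    have h3 : ((Nat.card K : ℝ) - 1) * Nat.card {U : Submodule K (Fin n → K) // Good2 U} ≤
        numMatroids K n * Nat.card (SM K (Fin n)) := by
      rw [← hqq]
      exact_mod_cast h2
    have h4 : (Nat.card {U : Submodule K (Fin n → K) // Good2 U} : ℝ) +
        Nat.card {U : Submodule K (Fin n → K) // ¬ Good2 U} = numSub K n := by
      classical
      have hfs := finite_submodule (K := K) (V := Fin n → K)
      have hft := Fintype.ofFinite (Submodule K (Fin n → K))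
      have h5 : Nat.card {U : Submodule K (Fin n → K) // Good2 U} +
          Nat.card {U : Submodule K (Fin n → K) // ¬ Good2 U} = numSub K n := by
        rw [numSub, Nat.card_eq_fintype_card, Nat.card_eq_fintype_card, Nat.card_eq_fintype_card,
          Fintype.card_subtype_compl]
        have := Fintype.card_subtype_le (fun U : Submodule K (Fin n → K) => Good2 U)
        omega
      exact_mod_cast h5
    have h6 : (1 - e' n) * numSub K n ≤ (Nat.card {U : Submodule K (Fin n → K) // Good2 U} : ℝ) := by
      linarith
    calc (1 - e' n) * (((Nat.card K : ℝ) - 1) * numSub K n)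
        = ((Nat.card K : ℝ) - 1) * ((1 - e' n) * numSub K n) := by ring
      _ ≤ ((Nat.card K : ℝ) - 1) * Nat.card {U : Submodule K (Fin n → K) // Good2 U} :=
          mul_le_mul_of_nonneg_left h6 hq.le
      _ ≤ _ := h3
  · filter_upwards [hup, eventually_gt_atTop 0] with n h1 hn
    rw [hratio n hn]
    have hN : (0 : ℝ) < numSub K n := by exact_mod_cast numSub_pos (K := K) n
    rw [div_le_iff₀ (by positivity)]
    have h2 : (numMatroids K n : ℝ) ≤ numOrb K n := by exact_mod_cast numMatroids_le
    calc (numMatroids K n * Nat.card (SM K (Fin n)) : ℝ)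
        ≤ numOrb K n * Nat.card (SM K (Fin n)) :=
          mul_le_mul_of_nonneg_right h2 (Nat.cast_nonneg _)
      _ ≤ ((Nat.card K - 1 : ℕ) + e n) * numSub K n := h1
      _ = (1 + e n / ((Nat.card K : ℝ) - 1)) * (((Nat.card K : ℝ) - 1) * numSub K n) := by
          rw [hqq]
          field_simp

end Pool.Agent.Results.MP_e84969_co.RepresentableCount
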